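import Mathlib
import Pool.Agent.Helper35.MS.StGB

/-!
Project MS (MP_925021_gt), module GEM: invariance of `H`, `|A|²`, `Z` and the area measure under
linear isometric embeddings.
-/

set_option autoImplicit false

namespace Helper29.MS

open Helper35.MS Helper35.PI Helper35.PI2 Helper32.CL
open scoped ContDiff Manifold Topology ENNReal BigOperators
open MeasureTheory Set Filter

section Aux

variable {n N N' : ℕ}

private theorem fdG (i : EE N →ₗᵢ[ℝ] EE N') (f : EE n → EE N) (x v : EE n) :
    fderiv ℝ (fun y => i (f y)) x v = i (fderiv ℝ f x v) := by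
  by_cases hf : DifferentiableAt ℝ f x
  · have h := (i.toContinuousLinearMap.hasFDerivAt (x := f x)).comp x hf.hasFDerivAt
    have h2 : HasFDerivAt (fun y => i (f y))
        (i.toContinuousLinearMap.comp (fderiv ℝ f x)) x := h
    rw [h2.fderiv]
    rfl
  · have hg : ¬ DifferentiableAt ℝ (fun y => i (f y)) x := by
      intro hg
      apply hf
      obtain ⟨g, hgi⟩ := i.toLinearMap.exists_leftInverse_of_injective
        (LinearMap.ker_eq_bot.2 i.injective)
      have h1 : DifferentiableAt ℝ (fun y => g.toContinuousLinearMap (i (f y))) x :=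
        (g.toContinuousLinearMap.differentiableAt).comp x hg
      have h2 : (fun y => g.toContinuousLinearMap (i (f y))) = f := by
        funext y
        have := LinearMap.congr_fun hgi (f y)
        exact this
      rw [h2] at h1
      exact h1
    rw [fderiv_zero_of_not_differentiableAt hf, fderiv_zero_of_not_differentiableAt hg]
    simp

private theorem dv1G (i : EE N →ₗᵢ[ℝ] EE N') (f : EE n → EE N) (x : EE n) (k : Fin n) :
    dv1 (fun y => i (f y)) x k = i (dv1 f x k) := fdG i f x _

private theorem dv2G (i : EE N →ₗᵢ[ℝ] EE N') (f : EE n → EE N) (x : EE n) (k l : Fin n) :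
    dv2 (fun y => i (f y)) x k l = i (dv2 f x k l) := by
  unfold dv2
  have h : (fun y => fderiv ℝ (fun y => i (f y)) y (ee l)) =
      fun y => i (fderiv ℝ f y (ee l)) := by
    funext y
    exact fdG i f y _
  rw [h]
  exact fdG i (fun y => fderiv ℝ f y (ee l)) x _

private theorem gramG (i : EE N →ₗᵢ[ℝ] EE N') (f : EE n → EE N) (x : EE n) :
    gram (fun y => i (f y)) x = gram f x := by
  ext a b
  show (inner ℝ (dv1 (fun y => i (f y)) x a) (dv1 (fun y => i (f y)) x b) : ℝ) =
    inner ℝ (dv1 f x a) (dv1 f x b)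
  rw [dv1G, dv1G, i.inner_map_map]

private theorem nrmG (i : EE N →ₗᵢ[ℝ] EE N') (f : EE n → EE N) (x : EE n) (v : EE N) :
    nrm (fun y => i (f y)) x (i v) = i (nrm f x v) := by
  unfold nrm
  rw [gramG, map_sub, map_sum]
  congr 1
  refine Finset.sum_congr rfl fun k _ => ?_
  rw [map_sum]
  refine Finset.sum_congr rfl fun l _ => ?_
  rw [dv1G, dv1G, i.inner_map_map, map_smul]

private theorem sffG (i : EE N →ₗᵢ[ℝ] EE N') (f : EE n → EE N) (x : EE n) (k l : Fin n) :
    sff (fun y => i (f y)) x k l = i (sff f x k l) := by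
  unfold sff
  rw [dv2G, nrmG]

private theorem mcvG (i : EE N →ₗᵢ[ℝ] EE N') (f : EE n → EE N) (x : EE n) :
    mcv (fun y => i (f y)) x = i (mcv f x) := by
  unfold mcv
  rw [gramG, map_sum]
  refine Finset.sum_congr rfl fun k _ => ?_
  rw [map_sum]
  refine Finset.sum_congr rfl fun l _ => ?_
  rw [sffG, map_smul]

private theorem nsqG (i : EE N →ₗᵢ[ℝ] EE N') (f : EE n → EE N) (x : EE n) :
    nsq (fun y => i (f y)) x = nsq f x := by
  unfold nsq
  simp only [gramG, sffG, i.inner_map_map]

private theorem zsqG (i : EE N →ₗᵢ[ℝ] EE N') (f : EE n → EE N) (x : EE n) :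
    zsq (fun y => i (f y)) x = zsq f x := by
  unfold zsq
  simp only [gramG, sffG, mcvG, i.inner_map_map]

private theorem sgmG (i : EE N →ₗᵢ[ℝ] EE N') (f : EE n → EE N) (x : EE n) :
    sgm (fun y => i (f y)) x = sgm f x := by
  unfold sgm
  rw [gramG]

end Aux

theorem hGEM : StGEM := by
  intro n N N' M _ _ _ _ J F G t s i _ _ hG
  have hloc : ∀ q : M, loc (n := n) G q s = fun y => i (loc (n := n) F q t y) := by
    intro q
    funext y
    exact hG _
  refine ⟨fun q => ⟨?_, ?_, ?_⟩, fun c χ => ?_⟩
  · unfold HH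
    rw [hloc, mcvG]
  · unfold AA
    rw [hloc, nsqG]
  · unfold ZF
    rw [hloc, zsqG]
  · unfold muM
    simp only [hloc, sgmG]

end Helper29.MS
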