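import Mathlib
import Pool.Agent.Helper35.MS.StF

/-!
Project MS (MP_925021_gt), module TY1: the singularity is of type I.
-/

set_option autoImplicit false

namespace Helper29.MS

open Helper35.MS Helper35.PI Helper35.PI2 Helper32.CL
open scoped ContDiff Manifold Topology ENNReal BigOperators
open MeasureTheory Set Filter

private theorem num1 {W x : ℝ} (hW0 : 16 * Real.pi ≤ W) (hW : W ≤ 52)
    (he : W - 16 * Real.pi ≤ 1 / 10 ^ 30) (hx : x ≤ 4 / 10 ^ 18) :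
    Real.sqrt ((W - 16 * Real.pi + 5 * Real.sqrt x) * (2 * W + 32 * Real.pi)) ≤ 1 / 400 := by
  have hp1 := Real.pi_lt_d2
  have hp2 := Real.pi_gt_three
  have h1 : Real.sqrt x ≤ 2 / 10 ^ 9 := by
    rw [Real.sqrt_le_iff]
    refine ⟨by norm_num, hx.trans (by norm_num)⟩
  have h2 : W - 16 * Real.pi + 5 * Real.sqrt x ≤ 2 / 10 ^ 8 := by
    have : (1 : ℝ) / 10 ^ 30 + 5 * (2 / 10 ^ 9) ≤ 2 / 10 ^ 8 := by norm_num
    linarith
  have h3 : 2 * W + 32 * Real.pi ≤ 205 := by linarith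
  have h4 : 0 ≤ 2 * W + 32 * Real.pi := by linarith
  rw [Real.sqrt_le_iff]
  refine ⟨by norm_num, ?_⟩
  calc (W - 16 * Real.pi + 5 * Real.sqrt x) * (2 * W + 32 * Real.pi)
      ≤ 2 / 10 ^ 8 * (2 * W + 32 * Real.pi) := mul_le_mul_of_nonneg_right h2 h4
    _ ≤ 2 / 10 ^ 8 * 205 := mul_le_mul_of_nonneg_left h3 (by norm_num)
    _ ≤ (1 / 400) ^ 2 := by norm_num

theorem hTY1 (hTI : StTI) (hPOT : StPOT) (hENE : StENE) (hMUJ : StMUJ) : StTY1 := by
  intro N M _ _ _ _ _ _ _ _ _ T F c χ δ hD hE hA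
  have hδ := hD.pi.δ0
  have hp1 := Real.pi_lt_d2
  have hp2 := Real.pi_gt_three
  obtain ⟨ts, hts, hts2⟩ := hE (min (δ / 400) (1 / 10 ^ 30)) (lt_min (by positivity) (by norm_num))
  obtain ⟨a, ha⟩ : ∃ a : ℝ, a = 1 / (5 * 10 ^ 8) := ⟨_, rfl⟩
  have htsT := hts.2
  have ha0 : 0 < a := by rw [ha]; norm_num
  have ha1 : a ≤ 1 / 4 := by rw [ha]; norm_num
  refine ⟨5 * 10 ^ 8, by norm_num, (ts + T) / 2, ⟨by linarith [hts.1, hD.T0], by linarith [hts.2]⟩, ?_⟩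
  intro t0 ht0 q
  have ht0T : t0 < T := ht0.2
  have ht0l : (ts + T) / 2 ≤ t0 := ht0.1
  obtain ⟨τ, hτ⟩ : ∃ τ : ℝ, τ = T - t0 := ⟨_, rfl⟩
  rw [← hτ]
  have hτ0 : 0 < τ := by rw [hτ]; linarith
  have haτ : 0 < a * τ := by positivity
  -- the left end
  have hlow : ts ≤ t0 - 2 * (a * τ) := by
    have h1 : a * τ ≤ 1 / 4 * τ := mul_le_mul_of_nonneg_right ha1 hτ0.le
    have h2 : τ ≤ (T - ts) / 2 := by rw [hτ]; linarith
    nlinarith
  have hts0 : 0 < ts := hts.1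
  -- mean value theorem
  have hder : ∀ x ∈ Ioo 0 T, HasDerivAt (eI F c χ) (-dI F c χ x) x := fun x hx =>
    (hENE N M (Ioo 0 T) F c χ hD.su x hx).2.1
  obtain ⟨t', ht', hmv⟩ := exists_hasDerivAt_eq_slope (eI F c χ) (fun x => -dI F c χ x)
    (a := t0 - 2 * (a * τ)) (b := t0 - a * τ) (by linarith)
    (fun x hx => (hder x ⟨by linarith [hx.1], by linarith [hx.2]⟩).continuousAt.continuousWithinAt)
    (fun x hx => hder x ⟨by linarith [hx.1], by linarith [hx.2]⟩)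
  have ht'1 := ht'.1
  have ht'2 := ht'.2
  have ht'J : t' ∈ Ioo 0 T := ⟨by linarith, by linarith⟩
  have e_nn : ∀ t ∈ Ioo 0 T, 0 ≤ eI F c χ t := by
    intro t ht
    exact integral_nonneg (fun q => hD.pi.th0 q t ht)
  have hd0 : 0 ≤ dI F c χ t' := integral_nonneg (fun q => hD.pi.g0 q t' ht'J)
  have hd1 : dI F c χ t' * (a * τ) ≤ 1 / 10 ^ 30 := by
    have h1 : t0 - a * τ - (t0 - 2 * (a * τ)) = a * τ := by ring
    rw [h1, eq_div_iff haτ.ne'] at hmv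
    have h2 := e_nn (t0 - a * τ) ⟨by linarith, by linarith⟩
    have h3 := hts2 (t0 - 2 * (a * τ)) ⟨hlow, by linarith⟩
    have h4 : min (δ / 400) (1 / 10 ^ 30 : ℝ) ≤ 1 / 10 ^ 30 := min_le_right _ _
    linarith
  have he' := hts2 t' ⟨by linarith, ht'J.2⟩
  have he1 : eI F c χ t' ≤ δ / 400 := he'.trans (min_le_left _ _)
  have he2 : eI F c χ t' ≤ 1 / 10 ^ 30 := he'.trans (min_le_right _ _)
  have he0 := e_nn t' ht'J
  have hgb := hD.gb t' ht'J
  have hsm : (1 : ℝ) / 10 ^ 30 ≤ 1 := by norm_num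
  have hW0 : 16 * Real.pi ≤ wI F c χ t' := by linarith
  have hW1 : wI F c χ t' ≤ 52 := by linarith
  have hWe : wI F c χ t' - 16 * Real.pi ≤ 1 / 10 ^ 30 := by linarith
  obtain ⟨hA1, hA2⟩ := hA t' ht'J
  obtain ⟨hP1, hP2, hP3⟩ := hPOT N M (Ioo 0 T) F c χ δ hD.su hD.pi t' ht'J hW0
  obtain ⟨τ', hτ'⟩ : ∃ τ' : ℝ, τ' = T - t' := ⟨_, rfl⟩
  rw [← hτ'] at hA1 hA2
  have hτ'1 : τ ≤ τ' := by rw [hτ, hτ']; linarith
  have hτ'2 : τ' ≤ 2 * τ := by
    have h1 : a * τ ≤ 1 / 4 * τ := mul_le_mul_of_nonneg_right ha1 hτ0.le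
    have h2 : τ' ≤ τ + 2 * (a * τ) := by rw [hτ']; linarith
    linarith
  have hτ'0 : 0 < τ' := by linarith
  have hAup : arI F c χ t' ≤ 104 * τ := by
    calc arI F c χ t' ≤ wI F c χ t' * τ' := hA2
      _ ≤ 52 * (2 * τ) := mul_le_mul hW1 hτ'2 hτ'0.le (by norm_num)
      _ = 104 * τ := by ring
  have hWAd : wI F c χ t' * arI F c χ t' * dI F c χ t' ≤ 4 / 10 ^ 18 := by
    have h1 : wI F c χ t' * arI F c χ t' ≤ 52 * (104 * τ) :=
      mul_le_mul hW1 hAup hP1.le (by norm_num)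
    have h2 : wI F c χ t' * arI F c χ t' * dI F c χ t' ≤ 52 * (104 * τ) * dI F c χ t' :=
      mul_le_mul_of_nonneg_right h1 hd0
    have h3 : 52 * (104 * τ) * dI F c χ t' = 5408 * (5 * 10 ^ 8) * (dI F c χ t' * (a * τ)) := by
      rw [ha]
      ring
    rw [h3] at h2
    have h4 : 5408 * (5 * 10 ^ 8) * (dI F c χ t' * (a * τ)) ≤
        5408 * (5 * 10 ^ 8) * (1 / 10 ^ 30) := mul_le_mul_of_nonneg_left hd1 (by norm_num)
    have h5 : (5408 : ℝ) * (5 * 10 ^ 8) * (1 / 10 ^ 30) ≤ 4 / 10 ^ 18 := by norm_num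
    linarith
  have hL1 := hP2.trans (num1 hW0 hW1 hWe hWAd)
  obtain ⟨k, hk⟩ : ∃ k : ℝ, k = 10240 / τ' := ⟨_, rfl⟩
  have hk0 : 0 < k := by rw [hk]; positivity
  have hz := hP3 k hk0
  have hkA : 128 * Real.pi ^ 2 / (k * arI F c χ t') ≤ 1 / 400 := by
    have h1 : 16 * Real.pi * 10240 ≤ k * arI F c χ t' := by
      have h2 : k * (16 * Real.pi * τ') ≤ k * arI F c χ t' :=
        mul_le_mul_of_nonneg_left hA1 hk0.le
      have h3 : k * (16 * Real.pi * τ') = 16 * Real.pi * 10240 := by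
        rw [hk]
        field_simp
      linarith
    rw [div_le_div_iff₀ (by positivity) (by norm_num)]
    nlinarith
  have hzz : zI k F c χ t' ≤ 1 / 200 := by linarith
  have hkW : k * wI F c χ t' * (t0 - t') ≤ 1 / 400 := by
    have h1 : t0 - t' ≤ 2 * (a * τ) := by linarith
    have h2 : k * wI F c χ t' ≤ k * 52 := mul_le_mul_of_nonneg_left hW1 hk0.le
    have h3 : k * wI F c χ t' * (t0 - t') ≤ k * 52 * (2 * (a * τ)) :=
      mul_le_mul h2 h1 (by linarith) (by positivity)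
    have h4 : k * τ ≤ 10240 := by
      rw [hk, div_mul_eq_mul_div, div_le_iff₀ hτ'0]
      linarith
    have h5 : k * 52 * (2 * (a * τ)) = 104 * a * (k * τ) := by ring
    have h6 : 104 * a * (k * τ) ≤ 104 * a * 10240 :=
      mul_le_mul_of_nonneg_left h4 (by positivity)
    have h7 : 104 * a * 10240 ≤ 1 / 400 := by
      rw [ha]
      norm_num
    exact h3.trans (h5.le.trans (h6.trans h7))
  have hfin := hTI N M (Ioo 0 T) F c χ δ hD.su hD.pi k t' t0 hk0 (by linarith)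
    (fun x hx => ⟨by linarith [hx.1], by linarith [hx.2]⟩) hzz he1 hkW q
  have hY0 : 0 ≤ YF F q t0 := by
    unfold YF
    positivity
  have h1 : a * τ * YF F q t0 ≤ (t0 - t') * YF F q t0 :=
    mul_le_mul_of_nonneg_right (by linarith) hY0
  have h2 : a * τ * YF F q t0 ≤ 1 := h1.trans hfin
  have h3 : τ * YF F q t0 = 5 * 10 ^ 8 * (a * τ * YF F q t0) := by
    rw [ha]
    ring
  rw [h3]
  linarith

end Helper29.MS
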