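import Mathlib
import Pool.Agent.Helper35.MS.StK

/-!
Project MS (MP_925021_gt), module WIN: the differential inequality for `|H + F/(2(T-t))|²`.
-/

set_option autoImplicit false

namespace Helper29.MS

open Helper35.MS Helper35.PI Helper35.PI2 Helper32.CL
open scoped ContDiff Manifold Topology ENNReal BigOperators
open MeasureTheory Set Filter

section Aux

variable {N : ℕ}

/-- the cross term with the derivative of `H` -/
private theorem stepP (P B : EE N) (s : ℝ) :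
    -2 * ‖P‖ ^ 2 + 2 * s * (inner ℝ P B : ℝ) ≤ s ^ 2 / 2 * ‖B‖ ^ 2 := by
  have h : 0 ≤ ‖P - (s / 2) • B‖ ^ 2 := by positivity
  rw [norm_sub_sq_real, inner_smul_right, norm_smul, mul_pow, Real.norm_eq_abs, sq_abs] at h
  nlinarith

private theorem stepB (a b : EE N) (x y : ℝ) :
    ‖x • a + y • b‖ ^ 2 ≤ (x ^ 2 + y ^ 2) * (‖a‖ ^ 2 + ‖b‖ ^ 2) := by
  have h1 : ‖x • a + y • b‖ ≤ |x| * ‖a‖ + |y| * ‖b‖ := by
    calc _ ≤ ‖x • a‖ + ‖y • b‖ := norm_add_le _ _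
      _ = _ := by rw [norm_smul, norm_smul, Real.norm_eq_abs, Real.norm_eq_abs]
  have h2 : ‖x • a + y • b‖ ^ 2 ≤ (|x| * ‖a‖ + |y| * ‖b‖) ^ 2 :=
    pow_le_pow_left₀ (norm_nonneg _) h1 2
  have h3 : (|x| * ‖a‖ + |y| * ‖b‖) ^ 2 ≤ (|x| ^ 2 + |y| ^ 2) * (‖a‖ ^ 2 + ‖b‖ ^ 2) := by
    nlinarith [sq_nonneg (|x| * ‖b‖ - |y| * ‖a‖)]
  rw [sq_abs, sq_abs] at h3
  exact h2.trans h3

/-- the final scalar inequality -/
private theorem fin1 {Y θ s w nn V E Q U X : ℝ} (hs : 0 < s) (hV : 0 ≤ V) (hn : 0 ≤ nn)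
    (hU0 : 0 ≤ U) (hU : U = Y + s * w + s ^ 2 / 4 * nn) (hX : 2 * X = Y + θ)
    (hE : E ≤ s ^ 2 / 2 * (V * X)) (hQ : Q ≤ Y * (Y + s * w) + θ * U) :
    E + Q + 2 * s * Y + s ^ 2 * w - s ^ 2 + s ^ 3 / 2 * (nn + V) ≤
      (Y + θ + 2 * s) * (Y + s * w + s ^ 2 / 4 * (nn + V)) +
        |Y - s| * (s + s ^ 2 / 4 * (nn + V)) := by
  have h1 : -((Y - s) * (s ^ 2 / 4 * nn - s)) ≤ |Y - s| * (s + s ^ 2 / 4 * (nn + V)) := by
    have e1 : -((Y - s) * (s ^ 2 / 4 * nn - s)) ≤ |Y - s| * |s ^ 2 / 4 * nn - s| := by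
      rw [← abs_mul]
      exact neg_le_abs _
    have e2 : |s ^ 2 / 4 * nn - s| ≤ s + s ^ 2 / 4 * (nn + V) := by
      have a1 : 0 ≤ s ^ 2 / 4 * nn := by positivity
      have a2 : 0 ≤ s ^ 2 / 4 * V := by positivity
      rw [abs_le]
      constructor <;> nlinarith
    exact e1.trans (mul_le_mul_of_nonneg_left e2 (abs_nonneg _))
  have h2 : 0 ≤ s * U := by positivity
  have hX' : X = (Y + θ) / 2 := by linarith
  rw [hX'] at hE
  have h3 : (Y + θ + 2 * s) * (Y + s * w + s ^ 2 / 4 * (nn + V)) =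
      (s ^ 2 / 2 * (V * ((Y + θ) / 2)) + (Y * (Y + s * w) + θ * U) + 2 * s * Y + s ^ 2 * w - s ^ 2
        + s ^ 3 / 2 * (nn + V)) + s * U + (Y - s) * (s ^ 2 / 4 * nn - s) := by
    rw [hU]
    ring
  rw [h3]
  linarith

private theorem alg (A : Fin 2 → Fin 2 → EE N) (T : Fin 2 → Fin 2 → Fin 2 → EE N) (ν : EE N)
    (v : Fin 2 → ℝ) (hA : SymV A) {s : ℝ} (hs : 0 < s) :
    (-2 * eq2 T + 2 * ZZ A) + s * (2 * (∑ k, (inner ℝ (et T k) (∑ a, v a • A k a) : ℝ))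
          + 2 * (∑ i, ∑ j, (inner ℝ (A i j) ν : ℝ) * inner ℝ (A i j) (Hv A)) + 2 * YY A)
      + s ^ 2 * (inner ℝ ν (Hv A) : ℝ) - s ^ 2 + s ^ 3 / 2 * (‖ν‖ ^ 2 + ∑ k, v k ^ 2) ≤
    (YY A + (2 * XX A - YY A) + 2 * s) *
      (YY A + s * (inner ℝ ν (Hv A) : ℝ) + s ^ 2 / 4 * (‖ν‖ ^ 2 + ∑ k, v k ^ 2)) +
      |YY A - s| * (s + s ^ 2 / 4 * (‖ν‖ ^ 2 + ∑ k, v k ^ 2)) := by
  obtain ⟨p, hp⟩ : ∃ p, p = A 0 0 := ⟨_, rfl⟩
  obtain ⟨r, hr⟩ : ∃ r, r = A 1 1 := ⟨_, rfl⟩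
  obtain ⟨k, hk⟩ : ∃ k, k = A 0 1 := ⟨_, rfl⟩
  have hk' : A 1 0 = k := by rw [hk]; exact hA 1 0
  obtain ⟨H, hH⟩ : ∃ H, H = Hv A := ⟨_, rfl⟩
  have hHpr : H = p + r := by
    rw [hH, hp, hr]
    unfold Hv
    rw [Fin.sum_univ_two]
  -- the quantities
  have hYY : YY A = ‖H‖ ^ 2 := by rw [hH]; rfl
  have hXX : XX A = ‖p‖ ^ 2 + ‖r‖ ^ 2 + 2 * ‖k‖ ^ 2 := by
    unfold XX
    simp only [Fin.sum_univ_two]
    rw [hk', ← hp, ← hr, ← hk]
    ring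
  have hZZ : ZZ A = (inner ℝ p H : ℝ) ^ 2 + (inner ℝ r H : ℝ) ^ 2 + 2 * (inner ℝ k H : ℝ) ^ 2 := by
    unfold ZZ zz
    simp only [Fin.sum_univ_two]
    rw [hk', ← hp, ← hr, ← hk, ← hH]
    ring
  have hSS : (∑ i, ∑ j, (inner ℝ (A i j) ν : ℝ) * inner ℝ (A i j) (Hv A)) =
      (inner ℝ p ν : ℝ) * inner ℝ p H + (inner ℝ r ν : ℝ) * inner ℝ r H
        + 2 * ((inner ℝ k ν : ℝ) * inner ℝ k H) := by
    simp only [Fin.sum_univ_two]
    rw [hk', ← hp, ← hr, ← hk, ← hH]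
    ring
  have hVV : ∑ k, v k ^ 2 = v 0 ^ 2 + v 1 ^ 2 := Fin.sum_univ_two _
  -- first part
  have hE : -2 * eq2 T + 2 * s * (∑ k, (inner ℝ (et T k) (∑ a, v a • A k a) : ℝ)) ≤
      s ^ 2 / 2 * ((v 0 ^ 2 + v 1 ^ 2) * XX A) := by
    have e0 : ∀ κ : Fin 2, -2 * ‖et T κ‖ ^ 2 + 2 * s * (inner ℝ (et T κ) (∑ a, v a • A κ a) : ℝ) ≤
        s ^ 2 / 2 * ((v 0 ^ 2 + v 1 ^ 2) * (‖A κ 0‖ ^ 2 + ‖A κ 1‖ ^ 2)) := by
      intro κ
      refine (stepP _ _ s).trans ?_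
      apply mul_le_mul_of_nonneg_left _ (by positivity)
      rw [Fin.sum_univ_two]
      exact stepB _ _ _ _
    have e1 := e0 0
    have e2 := e0 1
    have e3 : XX A = (‖A 0 0‖ ^ 2 + ‖A 0 1‖ ^ 2) + (‖A 1 0‖ ^ 2 + ‖A 1 1‖ ^ 2) := by
      unfold XX
      simp only [Fin.sum_univ_two]
    have e4 : eq2 T = ‖et T 0‖ ^ 2 + ‖et T 1‖ ^ 2 := by
      unfold eq2
      rw [Fin.sum_univ_two]
    have e5 : (∑ k, (inner ℝ (et T k) (∑ a, v a • A k a) : ℝ)) =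
        (inner ℝ (et T 0) (∑ a, v a • A 0 a) : ℝ) + (inner ℝ (et T 1) (∑ a, v a • A 1 a) : ℝ) :=
      Fin.sum_univ_two _
    rw [e3, e4, e5]
    linarith
  -- second part
  obtain ⟨U, hU⟩ : ∃ U : ℝ, U = ‖H + (s / 2) • ν‖ ^ 2 := ⟨_, rfl⟩
  have hU0 : 0 ≤ U := by rw [hU]; positivity
  have hUe : U = ‖H‖ ^ 2 + s * (inner ℝ ν H : ℝ) + s ^ 2 / 4 * ‖ν‖ ^ 2 := by
    rw [hU, norm_add_sq_real, inner_smul_right, norm_smul, mul_pow, Real.norm_eq_abs, sq_abs,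
      real_inner_comm]
    ring
  have hθ : 2 * XX A - YY A = ‖p - r‖ ^ 2 + 4 * ‖k‖ ^ 2 := by
    rw [hXX, hYY, hHpr, norm_add_sq_real, norm_sub_sq_real]
    ring
  have hQ : 2 * ZZ A + 2 * s * (∑ i, ∑ j, (inner ℝ (A i j) ν : ℝ) * inner ℝ (A i j) (Hv A)) ≤
      YY A * (YY A + s * (inner ℝ ν H : ℝ)) + (2 * XX A - YY A) * U := by
    rw [hZZ, hSS, hθ, hYY]
    have cs1 : (inner ℝ (p - r) (H + (s / 2) • ν) : ℝ) ^ 2 ≤ ‖p - r‖ ^ 2 * U := by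
      rw [hU, ← mul_pow, ← sq_abs]
      exact pow_le_pow_left₀ (abs_nonneg _) (abs_real_inner_le_norm _ _) 2
    have cs2 : (inner ℝ k (H + (s / 2) • ν) : ℝ) ^ 2 ≤ ‖k‖ ^ 2 * U := by
      rw [hU, ← mul_pow, ← sq_abs]
      exact pow_le_pow_left₀ (abs_nonneg _) (abs_real_inner_le_norm _ _) 2
    rw [inner_add_right, inner_sub_left, inner_smul_right, inner_sub_left] at cs1
    rw [inner_add_right, inner_smul_right] at cs2
    have eY : ‖H‖ ^ 2 = (inner ℝ p H : ℝ) + inner ℝ r H := by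
      rw [← inner_add_left, ← hHpr, real_inner_self_eq_norm_sq]
    have ew : (inner ℝ ν H : ℝ) = (inner ℝ p ν : ℝ) + inner ℝ r ν := by
      rw [← inner_add_left, ← hHpr, real_inner_comm]
    rw [eY, ew]
    nlinarith [sq_nonneg (((inner ℝ p H : ℝ) - inner ℝ r H) -
        ((inner ℝ p H : ℝ) - inner ℝ r H + s / 2 * ((inner ℝ p ν : ℝ) - inner ℝ r ν))),
      sq_nonneg ((inner ℝ k H : ℝ) - ((inner ℝ k H : ℝ) + s / 2 * (inner ℝ k ν : ℝ)))]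
  have hfin := fin1 (Y := YY A) (θ := 2 * XX A - YY A) (s := s) (w := (inner ℝ ν H : ℝ))
    (nn := ‖ν‖ ^ 2) (V := v 0 ^ 2 + v 1 ^ 2)
    (E := -2 * eq2 T + 2 * s * (∑ k, (inner ℝ (et T k) (∑ a, v a • A k a) : ℝ)))
    (Q := 2 * ZZ A + 2 * s * (∑ i, ∑ j, (inner ℝ (A i j) ν : ℝ) * inner ℝ (A i j) (Hv A)))
    (U := U) (X := XX A) hs (by positivity) (by positivity) hU0
    (by rw [hUe, hYY]) (by ring) hE hQ
  rw [hVV, ← hH]
  rw [← hH] at hfin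
  refine le_trans (le_of_eq ?_) hfin
  ring

end Aux

private theorem dA1 {T t : ℝ} (h : t < T) :
    HasDerivAt (fun t => 1 / (T - t)) (1 / (T - t) ^ 2) t := by
  have h0 : T - t ≠ 0 := by linarith
  have h1 : HasDerivAt (fun t => T - t) (-1) t := by
    simpa using (hasDerivAt_id t).const_sub T
  have h2 := h1.inv h0
  refine (h2.congr_deriv ?_).congr_of_eventuallyEq ?_
  · field_simp
  · filter_upwards with x
    exact one_div _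

private theorem dA2 {T t : ℝ} (h : t < T) :
    HasDerivAt (fun t => 1 / (4 * (T - t) ^ 2)) (1 / (2 * (T - t) ^ 3)) t := by
  have h0 : T - t ≠ 0 := by linarith
  have h1 : HasDerivAt (fun t => T - t) (-1) t := by
    simpa using (hasDerivAt_id t).const_sub T
  have h2 := ((h1.pow 2).const_mul 4).inv (mul_ne_zero four_ne_zero (pow_ne_zero 2 h0))
  refine (h2.congr_deriv ?_).congr_of_eventuallyEq ?_
  · simp only [Pi.pow_apply]
    obtain ⟨x, hx⟩ : ∃ x, x = T - t := ⟨_, rfl⟩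
    rw [← hx] at h0 ⊢
    field_simp
    ring
  · filter_upwards with x
    simp [one_div]

theorem hWIN (hQFE : StQFE) (hLNT : StLNT) (hLIN : StLIN) : StWIN := by
  intro N M _ _ _ T F hF
  obtain ⟨eY, eF, eFH, hjet⟩ := hQFE N M (Ioo 0 T) F hF
  have hI : IsImmJ (n := 2) (Ioo 0 T) F := hF.toIsImmJ
  have hne : ∀ t ∈ Ioo 0 T, T - t ≠ 0 := fun t ht => by linarith [ht.2]
  obtain ⟨e1, g1⟩ := hLNT N M (Ioo 0 T) F hI
    (fun q t => (inner ℝ (F q t) (HH (n := 2) F q t) : ℝ)) (fun t => 1 / (T - t))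
    (fun t => 1 / (T - t) ^ 2) eFH (fun t ht => dA1 ht.2)
    (by
      refine continuousOn_const.div ((continuous_const.sub continuous_id).pow 2).continuousOn ?_
      intro t ht
      exact pow_ne_zero 2 (hne t ht))
  obtain ⟨e2, g2⟩ := hLNT N M (Ioo 0 T) F hI
    (fun q t => ‖F q t‖ ^ 2) (fun t => 1 / (4 * (T - t) ^ 2))
    (fun t => 1 / (2 * (T - t) ^ 3)) eF (fun t ht => dA2 ht.2)
    (by
      refine continuousOn_const.div
        (continuous_const.mul ((continuous_const.sub continuous_id).pow 3)).continuousOn ?_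
      intro t ht
      exact mul_ne_zero two_ne_zero (pow_ne_zero 3 (hne t ht)))
  obtain ⟨e3, g3⟩ := hLIN N M (Ioo 0 T) F hI (YF F)
    (fun q t => 1 / (T - t) * (inner ℝ (F q t) (HH (n := 2) F q t) : ℝ)) 1 1 eY e1
  obtain ⟨e4, g4⟩ := hLIN N M (Ioo 0 T) F hI
    (fun q t => 1 * YF F q t + 1 * (1 / (T - t) * (inner ℝ (F q t) (HH (n := 2) F q t) : ℝ)))
    (fun q t => 1 / (4 * (T - t) ^ 2) * ‖F q t‖ ^ 2) 1 1 e3 e2
  have hexp : ∀ q t, uF T F q t = YF F q t +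
      1 / (T - t) * (inner ℝ (F q t) (HH (n := 2) F q t) : ℝ) +
      1 / (4 * (T - t) ^ 2) * ‖F q t‖ ^ 2 := by
    intro q t
    unfold uF YF
    rw [norm_add_sq_real, inner_smul_right, norm_smul, mul_pow, Real.norm_eq_abs, sq_abs,
      real_inner_comm]
    generalize T - t = x
    ring
  have hfun : uF T F = fun q t => 1 * (1 * YF F q t +
      1 * (1 / (T - t) * (inner ℝ (F q t) (HH (n := 2) F q t) : ℝ))) +
      1 * (1 / (4 * (T - t) ^ 2) * ‖F q t‖ ^ 2) := by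
    funext q t
    rw [hexp]
    ring
  refine ⟨by rw [hfun]; exact e4, ?_⟩
  intro q t ht
  have hτ : 0 < T - t := by linarith [ht.2]
  have hht : htF F (uF T F) q t = htF F (YF F) q t +
      (1 / (T - t) * htF F (fun q t => (inner ℝ (F q t) (HH (n := 2) F q t) : ℝ)) q t +
        1 / (T - t) ^ 2 * (inner ℝ (F q t) (HH (n := 2) F q t) : ℝ)) +
      (1 / (4 * (T - t) ^ 2) * htF F (fun q t => ‖F q t‖ ^ 2) q t +
        1 / (2 * (T - t) ^ 3) * ‖F q t‖ ^ 2) := by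
    rw [hfun, (g4 q t ht).2, (g3 q t ht).2, (g1 q t ht).2, (g2 q t ht).2]
    ring
  obtain ⟨h4, A, T', ν, v, hS, -, hAA, hHH, hFF, hFH, hY, hXY⟩ := hjet q t ht
  have hYF : YF F q t = YY A := by
    unfold YF YY
    rw [hHH]
  have hth : thF 2 F q t = 2 * XX A - YY A := by
    unfold thF
    rw [hAA, hHH]
    rfl
  obtain ⟨s, hs⟩ : ∃ s : ℝ, s = 1 / (T - t) := ⟨_, rfl⟩
  have hs0 : 0 < s := by rw [hs]; positivity
  have hs2 : 1 / (T - t) ^ 2 = s ^ 2 := by rw [hs]; generalize T - t = x; ring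
  have hs3 : 1 / (4 * (T - t) ^ 2) = s ^ 2 / 4 := by rw [hs]; generalize T - t = x; ring
  have hs4 : 1 / (2 * (T - t) ^ 3) = s ^ 3 / 2 := by rw [hs]; generalize T - t = x; ring
  have hs5 : 2 / (T - t) = 2 * s := by rw [hs]; ring
  have hs6 : ‖F q t‖ ^ 2 / (4 * (T - t) ^ 2) = s ^ 2 / 4 * ‖F q t‖ ^ 2 := by
    rw [hs]; generalize T - t = x; ring
  have key := alg A T' ν v hS hs0
  rw [hht, hexp, h4, hY, hXY, hFH, hs6, hs2, hs3, hs4, hs5, ← hs, hYF, hth, hFF]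
  refine le_trans (le_of_eq ?_) key
  ring

end Helper29.MS
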